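import Pool.Agent.H15.FamLink
import Pool.Agent.H15.Lower
import Pool.Agent.H7.LN2.Loops

open H15

namespace Pool.Agent.Results.MP_19149c_co.AllPairs

/-- For all `3 ≤ k ≤ d - 2` the number `n(k,d)` exists, `n(k,d) < α(k,d)`, and `n(k,d) - 2d` is of
order `k`: `(2k + 41) / 27 ≤ n(k,d) - 2d ≤ k + 2`. -/
theorem result (k d : ℕ) (hk3 : 3 ≤ k) (hk2 : k + 2 ≤ d) :
    IsLeast {N : ℕ | ∀ S : Finset (EuclideanSpace ℝ (Fin d)), N ≤ S.card → FlatCondition k S →
      Divisible k S} (nDiv k d) ∧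
    nDiv k d < alpha k d ∧
    2 * (d : ℝ) + (2 * k + 41) / 27 ≤ nDiv k d ∧ nDiv k d ≤ 2 * d + k + 2 := by
  have hkd : k ≤ d := by omega
  refine ⟨nDiv_isLeast hkd, ?_, ?_, nDiv_le hkd⟩
  · by_cases hk5 : 5 ≤ k
    · refine lt_of_le_of_lt (nDiv_le hkd) ?_
      unfold alpha
      obtain ⟨e, rfl⟩ := Nat.exists_eq_add_of_le hk2
      have h1 : k + 2 + e - k + 2 = e + 4 := by omega
      rw [h1]
      nlinarith
    · have : k = 3 ∨ k = 4 := by omega
      rcases this with rfl | rfl
      · have h1 : nDiv 3 d ≤ 2 * d + 2 := Nat.sInf_le fun S hcard hS =>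
          divisible_three (by omega) S hS hcard
        refine lt_of_le_of_lt h1 ?_
        unfold alpha
        omega
      · have h1 : nDiv 4 d ≤ 2 * d + 5 := Nat.sInf_le fun S hcard hS =>
          divisible_four (by omega) S hS hcard
        refine lt_of_le_of_lt h1 ?_
        unfold alpha
        omega
  · have key := H7.LN2.key_all hk3 hk2
    have key' : (54 * d + 2 * k + 41 : ℝ) ≤ 27 * nDiv k d := by exact_mod_cast key
    linarith

end Pool.Agent.Results.MP_19149c_co.AllPairs
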