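import Pool.Agent.H7.LN2.Loops
import Pool.Agent.H30.EV.Main

open H15

namespace Pool.Agent.Results.MP_19149c_co.Eventual

/-- For every `k ≥ 3` there is a constant `c` such that `n(k, d) = 2d + c` for all `d ≥ 9k`;
here `(2k + 41) / 27 ≤ c ≤ k + 2`. -/
theorem result (k : ℕ) (hk : 3 ≤ k) :
    ∃ c : ℕ, (∀ d : ℕ, 9 * k ≤ d →
      IsLeast {N : ℕ | ∀ S : Finset (EuclideanSpace ℝ (Fin d)), N ≤ S.card → FlatCondition k S →
        Divisible k S} (2 * d + c)) ∧
      (2 * (k : ℝ) + 41) / 27 ≤ c ∧ c ≤ k + 2 := by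
  obtain ⟨c, -, hc, h⟩ := H30.EV.eventually (k := k) hk
  refine ⟨c, fun d hd => ?_, ?_, hc⟩
  · have h4 := nDiv_isLeast (k := k) (d := d) (by omega)
    rwa [h d hd] at h4
  · have h5 := h _ le_rfl
    have key := H7.LN2.key_all (k := k) (d := 9 * k) hk (by omega)
    rw [h5] at key
    have key2 : 2 * k + 41 ≤ 27 * c := by omega
    have key' : (2 * k + 41 : ℝ) ≤ 27 * c := by exact_mod_cast key2
    linarith

end Pool.Agent.Results.MP_19149c_co.Eventual
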