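import Pool.Agent.H30.DV.Assemble
import Pool.Agent.H65.LN.Line
import Pool.Agent.H81.LR.Main

open H15

namespace Pool.Agent.Results.MP_19149c_co.ExactNearDiagonal

/-- The exact value `n(k, d) = d + 2k` for all `k + 2 ≤ d` with `k ≥ 320000 (d - k + 1)`, and for `d = k + 2`
already for all `k ≥ 4`. -/
theorem result (k d : ℕ) (hd : k + 2 ≤ d)
    (h : 320000 * (d - k + 1) ≤ k ∨ (d = k + 2 ∧ 4 ≤ k)) :
    IsLeast {N : ℕ | ∀ S : Finset (EuclideanSpace ℝ (Fin d)), N ≤ S.card →
      FlatCondition k S → Divisible k S} (d + 2 * k) := by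
  rcases h with h | ⟨h, hk⟩
  · exact H9.LR.isLeast_of_core (by norm_num) H81.LR.core k d hd h
  · obtain rfl : d = k + 2 := h
    have h1 : nDiv k (k + 2) ≤ k + 2 + 2 * k :=
      Nat.sInf_le fun S hcard hS => H30.DV.divisible_diag hk S hS (by omega)
    have h2 := H65.LN.bound_line (k := k) (d := k + 2) (by omega) hd
    have h3 : nDiv k (k + 2) = k + 2 + 2 * k := le_antisymm h1 (by omega)
    have h4 := nDiv_isLeast (k := k) (d := k + 2) (by omega)
    rwa [h3] at h4

end Pool.Agent.Results.MP_19149c_co.ExactNearDiagonal
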