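import Pool.Agent.H15.Lower
import Pool.Agent.H30.FO.Red

open H15

namespace Pool.Agent.Results.MP_19149c_co.ExactThreeFour

/-- The exact value `n(k, d) = 2d + 2` for `k = 3` and `k = 4` and all `d ≥ k + 2`. -/
theorem result (k d : ℕ) (hk : k = 3 ∨ k = 4) (hd : k + 2 ≤ d) :
    IsLeast {N : ℕ | ∀ S : Finset (EuclideanSpace ℝ (Fin d)), N ≤ S.card → FlatCondition k S →
      Divisible k S} (2 * d + 2) := by
  have h1 : nDiv k d ≤ 2 * d + 2 := by
    rcases hk with rfl | rfl
    · exact Nat.sInf_le fun S hcard hS => divisible_three (by omega) S hS hcard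
    · exact Nat.sInf_le fun S hcard hS => H30.FO.divisible_four' (by omega) S hS hcard
  have h2 := le_nDiv (k := k) (d := d) (by omega) (by omega)
  have h3 : nDiv k d = 2 * d + 2 := le_antisymm h1 h2
  have h4 := nDiv_isLeast (k := k) (d := d) (by omega)
  rwa [h3] at h4

end Pool.Agent.Results.MP_19149c_co.ExactThreeFour
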